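import Mathlib
import Pool.Agent.Helper50.Rec.Defs
import Pool.Agent.Helper50.Rec.Basic

/-!
# Single polynomial averages (REC-11)
-/

open MeasureTheory Polynomial Finset Filter Topology
open scoped BigOperators ComplexConjugate

namespace Pool.Agent.Helper50.Rec

variable {X : Type} [MeasurableSpace X]

/-! ### differences of shifted polynomials -/

lemma coeff_taylor_sub (P : ℤ[X]) (d : ℕ) (hP : P.natDegree = d + 1) (r : ℤ) :
    (taylor r P).coeff d = P.coeff d + (d + 1) * P.leadingCoeff * r := by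
  rw [taylor_coeff]
  have h1 : (hasseDeriv d P).natDegree < 2 := by
    have := natDegree_hasseDeriv_le P d
    omega
  rw [eval_eq_sum_range' h1]
  simp only [Finset.sum_range_succ, Finset.sum_range_zero, hasseDeriv_coeff, pow_zero, pow_one,
    zero_add, mul_one, Nat.choose_self, Nat.cast_one, one_mul]
  rw [show 1 + d = d + 1 from add_comm 1 d, Nat.choose_succ_self_right,
    show P.coeff (d + 1) = P.leadingCoeff by rw [leadingCoeff, hP]]
  push_cast
  ring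

lemma coeff_taylor_top (P : ℤ[X]) (d : ℕ) (hP : P.natDegree = d) (r : ℤ) :
    (taylor r P).coeff d = P.leadingCoeff := by
  have h1 : (taylor r P).natDegree = d := by rw [natDegree_taylor, hP]
  rw [← h1, coeff_natDegree, leadingCoeff_taylor]

/-- degree and leading coefficient of the difference of two shifts -/
lemma diff_shift (P : ℤ[X]) (d : ℕ) (hP : P.natDegree = d + 1) (a b : ℤ) (hab : a ≠ b) :
    (taylor a P - taylor b P).natDegree = d ∧
      (taylor a P - taylor b P).leadingCoeff = (d + 1) * (a - b) * P.leadingCoeff := by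
  have hP0 : P.leadingCoeff ≠ 0 := by
    rw [leadingCoeff_ne_zero]; intro h; rw [h] at hP; simp at hP
  have hd : (taylor a P - taylor b P).coeff d = (d + 1) * (a - b) * P.leadingCoeff := by
    rw [coeff_sub, coeff_taylor_sub P d hP, coeff_taylor_sub P d hP]; ring
  have hne : (taylor a P - taylor b P).coeff d ≠ 0 := by
    rw [hd]
    have h1 : ((d : ℤ) + 1) ≠ 0 := by positivity
    have h2 : a - b ≠ 0 := sub_ne_zero.2 hab
    exact mul_ne_zero (mul_ne_zero h1 h2) hP0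
  have hle : (taylor a P - taylor b P).natDegree ≤ d := by
    rw [natDegree_le_iff_coeff_eq_zero]
    intro N hN
    rcases Nat.lt_or_ge (d + 1) N with h | h
    · rw [coeff_sub, coeff_eq_zero_of_natDegree_lt (by rw [natDegree_taylor, hP]; exact h),
        coeff_eq_zero_of_natDegree_lt (by rw [natDegree_taylor, hP]; exact h), sub_zero]
    · have : N = d + 1 := by omega
      rw [this, coeff_sub, coeff_taylor_top P _ hP, coeff_taylor_top P _ hP, sub_self]
  have hge : d ≤ (taylor a P - taylor b P).natDegree := le_natDegree_of_ne_zero hne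
  have heq : (taylor a P - taylor b P).natDegree = d := le_antisymm hle hge
  refine ⟨heq, ?_⟩
  rw [leadingCoeff, heq, hd]

/-! ### mean ergodic theorem for one power of the shift -/

lemma memLp2 (S : Sys X) {f : X → ℂ} (hf : B1 f) : MemLp f 2 S.μ :=
  MemLp.of_bound hf.1.aestronglyMeasurable 1 (Eventually.of_forall hf.2)

lemma inner_toLp (S : Sys X) (F : Lp ℂ 2 S.μ) {f : X → ℂ} (hf : B1 f) :
    inner ℂ F ((memLp2 S hf).toLp f) = S.int (fun x => f x * conj (F x)) := by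
  rw [L2.inner_def]
  refine integral_congr_ae ?_
  filter_upwards [(memLp2 S hf).coeFn_toLp] with x hx
  rw [hx]
  simp

lemma norm_toLp_sq (S : Sys X) {f : X → ℂ} (hf : B1 f) :
    ‖(memLp2 S hf).toLp f‖ ^ 2 = S.sq f := by
  have h1 : ((‖(memLp2 S hf).toLp f‖ ^ 2 : ℝ) : ℂ) = ((S.sq f : ℝ) : ℂ) := by
    rw [S.sq_eq_int]
    have h2 := inner_self_eq_norm_sq_to_K (𝕜 := ℂ) ((memLp2 S hf).toLp f)
    rw [inner_toLp S _ hf] at h2
    push_cast
    refine h2.symm.trans ?_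
    refine integral_congr_ae ?_
    filter_upwards [(memLp2 S hf).coeFn_toLp] with x hx
    rw [hx]
  exact_mod_cast h1

/-- the Koopman operator -/
noncomputable def koop (S : Sys X) (n : ℤ) : Lp ℂ 2 S.μ →ₗᵢ[ℂ] Lp ℂ 2 S.μ :=
  Lp.compMeasurePreservingₗᵢ ℂ (S.τ n) (S.mp n)

lemma koop_toLp (S : Sys X) (n : ℤ) {f : X → ℂ} (hf : B1 f) :
    koop S n ((memLp2 S hf).toLp f) = (memLp2 S (hf.sh S n)).toLp (S.sh n f) := rfl

lemma koop_iter (S : Sys X) (n : ℤ) (k : ℕ) {f : X → ℂ} (hf : B1 f) :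
    (koop S n)^[k] ((memLp2 S hf).toLp f) =
      (memLp2 S (hf.sh S (n * k))).toLp (S.sh (n * k) f) := by
  induction k with
  | zero =>
    simp only [Function.iterate_zero, id_eq]
    congr 1
    rw [Nat.cast_zero, mul_zero, S.sh_zero]
  | succ k ih =>
    rw [Function.iterate_succ_apply', ih, koop_toLp S n (hf.sh S (n * k))]
    congr 1
    rw [S.sh_sh]; congr 1; push_cast; ring

lemma coeFn_toLp_sum (S : Sys X) {v : ℕ → X → ℂ} (hv : ∀ h, B1 (v h)) (N : ℕ) :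
    (∑ k ∈ range N, (memLp2 S (hv k)).toLp (v k) : Lp ℂ 2 S.μ) =ᵐ[S.μ]
      fun x => ∑ k ∈ range N, v k x := by
  induction N with
  | zero =>
    simp only [range_zero, sum_empty]
    exact Lp.coeFn_zero _ _ _
  | succ N ih =>
    rw [sum_range_succ]
    refine (Lp.coeFn_add _ _).trans ?_
    filter_upwards [ih, (memLp2 S (hv N)).coeFn_toLp] with x h1 h2
    rw [Pi.add_apply, h1, h2, sum_range_succ]

lemma birkhoff_eq (S : Sys X) (n : ℤ) (N : ℕ) {f : X → ℂ} (hf : B1 f) :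
    birkhoffAverage ℂ (koop S n) _root_.id N ((memLp2 S hf).toLp f) =
      (memLp2 S (B1.avg (fun h => hf.sh S (n * h)) N)).toLp
        (avg N (fun h => S.sh (n * h) f)) := by
  rw [birkhoffAverage, birkhoffSum]
  simp only [_root_.id, koop_iter S n _ hf]
  refine Lp.ext ?_
  refine (Lp.coeFn_smul _ _).trans ?_
  filter_upwards [coeFn_toLp_sum S (fun h => hf.sh S (n * h)) N,
    (memLp2 S (B1.avg (fun h => hf.sh S (n * h)) N)).coeFn_toLp] with x h1 h2
  rw [Pi.smul_apply, h1, h2, smul_eq_mul]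
  rfl

/-- mean ergodic theorem for functions orthogonal to the rational factor -/
lemma linear_tendsto (S : Sys X) (n : ℤ) (hn : n ≠ 0) {f : X → ℂ} (hf : B1 f)
    (hrat : S.RatNull f) :
    Tendsto (fun N : ℕ => S.sq (avg N (fun h => S.sh (n * h) f))) atTop (𝓝 0) := by
  set F : Lp ℂ 2 S.μ := (memLp2 S hf).toLp f with hF
  set U : Lp ℂ 2 S.μ →L[ℂ] Lp ℂ 2 S.μ := (koop S n).toContinuousLinearMap with hU
  have hU1 : ‖U‖ ≤ 1 := (koop S n).norm_toContinuousLinearMap_le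
  have hlim := U.tendsto_birkhoffAverage_orthogonalProjection hU1 F
  set P : Lp ℂ 2 S.μ := ((U.eqLocus (1 : Lp ℂ 2 S.μ →L[ℂ] Lp ℂ 2 S.μ)).orthogonalProjectionOnto F :
    Lp ℂ 2 S.μ) with hP
  have hA : ∀ N, birkhoffAverage ℂ U _root_.id N F =
      (memLp2 S (B1.avg (fun h => hf.sh S (n * h)) N)).toLp
        (avg N (fun h => S.sh (n * h) f)) := fun N => birkhoff_eq S n N hf
  simp only [hA] at hlim
  -- invariance of the limit
  have hPinv : koop S n P = P := by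
    have h := ((U.eqLocus (1 : Lp ℂ 2 S.μ →L[ℂ] Lp ℂ 2 S.μ)).orthogonalProjectionOnto F).2
    exact h
  have hPae : ∀ᵐ x ∂S.μ, P (S.τ n x) = P x := by
    have h1 : (koop S n P : Lp ℂ 2 S.μ) =ᵐ[S.μ] P ∘ S.τ n :=
      Lp.coeFn_compMeasurePreserving P (S.mp n)
    rw [hPinv] at h1
    filter_upwards [h1] with x hx
    exact hx.symm
  -- the limit is bounded by one
  have hPle : ∀ᵐ x ∂S.μ, ‖P x‖ ≤ 1 := by
    have h1 : TendstoInMeasure S.μ (fun N => ((memLp2 S (B1.avg (fun h => hf.sh S (n * h)) N)).toLp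
        (avg N (fun h => S.sh (n * h) f)) : X → ℂ)) atTop P :=
      tendstoInMeasure_of_tendsto_Lp hlim
    obtain ⟨ns, _, h2⟩ := h1.exists_seq_tendsto_ae
    have h3 : ∀ᵐ x ∂S.μ, ∀ N, ‖((memLp2 S (B1.avg (fun h => hf.sh S (n * h)) N)).toLp
        (avg N (fun h => S.sh (n * h) f)) : X → ℂ) x‖ ≤ 1 := by
      rw [ae_all_iff]
      intro N
      filter_upwards [(memLp2 S (B1.avg (fun h => hf.sh S (n * h)) N)).coeFn_toLp] with x hx
      rw [hx]
      exact (B1.avg (fun h => hf.sh S (n * h)) N).2 x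
    filter_upwards [h2, h3] with x h4 h5
    exact le_of_tendsto h4.norm (Eventually.of_forall fun N => h5 _)
  -- a representative in B1
  have hPm : Measurable (P : X → ℂ) := (Lp.stronglyMeasurable P).measurable
  set G : X → ℂ := fun x => if ‖P x‖ ≤ 1 then P x else 0 with hG
  have hGP : ∀ᵐ x ∂S.μ, G x = P x := by
    filter_upwards [hPle] with x hx
    simp [hG, hx]
  have hGB : B1 G := by
    refine ⟨Measurable.ite (measurableSet_le hPm.norm measurable_const) hPm measurable_const,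
      fun x => ?_⟩
    by_cases hx : ‖P x‖ ≤ 1
    · simp [hG, hx]
    · simp [hG, hx]
  have hGn : ∀ᵐ x ∂S.μ, G (S.τ n x) = G x := by
    filter_upwards [hGP, S.ae_sh n hGP, hPae] with x h1 h2 h3
    rw [h1, h2, h3]
  have hGinv : S.Inv n.natAbs G := by
    refine ⟨hGB, ?_⟩
    rcases Int.natAbs_eq n with h | h
    · rw [← h]; exact hGn
    · have h' : ((n.natAbs : ℕ) : ℤ) = -n := by omega
      rw [h']
      filter_upwards [S.ae_sh (-n) hGn] with x hx
      rw [← S.τ_add] at hx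
      simp only [add_neg_cancel, S.τ_zero] at hx
      exact hx.symm
  have hzero := hrat n.natAbs (Int.natAbs_pos.2 hn) G hGinv
  -- the limit vanishes
  have hPF : inner ℂ P F = 0 := by
    rw [hF, inner_toLp S _ hf, ← hzero]
    refine S.int_congr_ae ?_
    filter_upwards [hGP] with x hx
    rw [hx]
  have hPP : P = 0 := by
    have h1 : inner ℂ (F - P) P = 0 :=
      Submodule.starProjection_inner_eq_zero (K := U.eqLocus (1 : Lp ℂ 2 S.μ →L[ℂ] Lp ℂ 2 S.μ))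
        F P (Submodule.starProjection_apply_mem _ F)
    have h2 : inner ℂ P (F - P) = 0 := by
      rw [← inner_conj_symm, h1, map_zero]
    rw [inner_sub_right, hPF, zero_sub, neg_eq_zero] at h2
    exact inner_self_eq_zero.1 h2
  rw [hPP] at hlim
  have h1 := (hlim.norm.pow 2)
  simp only [norm_zero, ne_eq, OfNat.ofNat_ne_zero, not_false_eq_true, zero_pow] at h1
  exact h1.congr fun N => norm_toLp_sq S (B1.avg (fun h => hf.sh S (n * h)) N)

/-! ### reduction of polynomial averages to linear averages -/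

lemma int_shift (S : Sys X) (p q : ℤ) (f g : X → ℂ) :
    S.int (fun x => S.sh p f x * conj (S.sh q g x)) =
      S.int (fun x => S.sh (p - q) f x * conj (g x)) := by
  rw [← S.int_sh (-q)]
  congr 1
  funext x
  simp only [Sys.sh, ← S.τ_add]
  rw [show q + -q = 0 by ring, S.τ_zero, show p + -q = p - q by ring]

lemma avg_shift (S : Sys X) (H : ℕ) (m : ℤ) (v : ℕ → X → ℂ) :
    avg H (fun h => S.sh m (v h)) = S.sh m (avg H v) := rfl

/-- correlation of two shifted polynomial averages -/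
lemma corr_le (S : Sys X) {f : X → ℂ} (hf : B1 f) (H : ℕ) (p : ℕ → ℤ) (δ : ℝ) (hδ : 0 ≤ δ)
    (h : S.sq (avg H (fun h => S.sh (p h) f)) ≤ δ ^ 2) :
    ‖(H : ℂ)⁻¹ * ∑ h ∈ range H, S.int (fun x => S.sh (p h) f x * conj (f x))‖ ≤ δ := by
  rw [← S.int_avg_mul (fun h => hf.sh S (p h)) H hf.conj]
  have h1 := S.cs_one (B1.avg (fun h => hf.sh S (p h)) H) hf.conj
  have h2 := h1.trans h
  exact (le_abs_self _).trans (abs_le_of_sq_le_sq h2 hδ)

lemma corr_le_one (S : Sys X) {f g : ℕ → X → ℂ} (hf : ∀ h, B1 (f h)) (hg : ∀ h, B1 (g h))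
    (H : ℕ) :
    ‖(H : ℂ)⁻¹ * ∑ h ∈ range H, S.int (fun x => f h x * conj (g h x))‖ ≤ 1 :=
  norm_avg_le H fun h => S.norm_int_le ((hf h).mul (hg h).conj)

/-- a matrix with entries at most one on the diagonal and at most `δ` off the diagonal -/
lemma mat_le (K : ℕ) (hK : 1 ≤ K) (t : ℕ → ℕ → ℝ) (δ : ℝ) (hδ : 0 ≤ δ)
    (h1 : ∀ a < K, t a a ≤ 1) (h2 : ∀ a < K, ∀ b < K, a ≠ b → t a b ≤ δ) :
    ((K : ℝ) ^ 2)⁻¹ * ∑ a ∈ range K, ∑ b ∈ range K, t a b ≤ 1 / K + δ := by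
  have hK' : (0 : ℝ) < K := by exact_mod_cast hK
  have h3 : ∑ a ∈ range K, ∑ b ∈ range K, t a b ≤
      ∑ a ∈ range K, ∑ b ∈ range K, ((if a = b then 1 else 0) + δ) := by
    refine Finset.sum_le_sum fun a ha => Finset.sum_le_sum fun b hb => ?_
    rw [Finset.mem_range] at ha hb
    by_cases hab : a = b
    · subst hab; rw [if_pos rfl]; have := h1 a ha; linarith
    · rw [if_neg hab]; have := h2 a ha b hb hab; linarith
  have h4 : ∑ a ∈ range K, ∑ b ∈ range K, (((if a = b then 1 else 0) : ℝ) + δ) =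
      K + K ^ 2 * δ := by
    simp only [Finset.sum_add_distrib, Finset.sum_ite_eq, Finset.mem_range, Finset.sum_const,
      Finset.card_range, nsmul_eq_mul]
    rw [Finset.sum_congr rfl (g := fun _ => (1 : ℝ)) fun a ha => by
      rw [if_pos (Finset.mem_range.1 ha)]]
    simp only [Finset.sum_const, Finset.card_range, nsmul_eq_mul]
    ring
  rw [h4] at h3
  calc ((K : ℝ) ^ 2)⁻¹ * ∑ a ∈ range K, ∑ b ∈ range K, t a b
      ≤ ((K : ℝ) ^ 2)⁻¹ * (K + K ^ 2 * δ) := by gcongr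
    _ = 1 / K + δ := by field_simp

lemma reduce (d : ℕ) (hd : 1 ≤ d) : ∀ (δ : ℝ), 0 < δ →
    ∃ (K : Finset ℤ) (δ' : ℝ) (H₁ : ℕ), 0 ∉ K ∧ 0 < δ' ∧
      ∀ (S : Sys X) (f : X → ℂ), B1 f → ∀ H ≥ H₁, ∀ P : ℤ[X], P.natDegree = d →
        (∀ κ ∈ K, S.sq (avg H (fun h => S.sh (κ * P.leadingCoeff * (h : ℤ)) f)) ≤ δ') →
        S.sq (avg H (fun h => S.sh (P.eval (h : ℤ)) f)) ≤ δ := by
  induction d, hd using Nat.le_induction with
  | base =>
    intro δ hδ
    refine ⟨{1}, δ, 0, by simp, hδ, ?_⟩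
    intro S f hf H _ P hP h
    have h1 := h 1 (by simp)
    have h2 : (avg H (fun h => S.sh (P.eval (h : ℤ)) f)) =
        S.sh (P.coeff 0) (avg H (fun h => S.sh (1 * P.leadingCoeff * (h : ℤ)) f)) := by
      rw [← avg_shift]
      congr 1
      funext h
      rw [S.sh_sh, one_mul]
      congr 1
      conv_lhs => rw [eq_X_add_C_of_natDegree_le_one hP.le]
      rw [leadingCoeff, hP]
      simp
    rw [h2, S.sq_sh]
    exact h1
  | succ d hd ih =>
    intro δ hδ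
    obtain ⟨K₁, δ₁, H₁, h0, hδ₁, hmain⟩ := ih ((δ / 3) ^ 2) (by positivity)
    obtain ⟨K, hK⟩ := exists_nat_gt (3 / δ)
    have hK0 : (0 : ℝ) < K := lt_trans (by positivity) hK
    have hK1 : 1 ≤ K := by
      have : 0 < K := by exact_mod_cast hK0
      exact this
    obtain ⟨H₂, hH₂⟩ := exists_nat_gt (6 * K / δ)
    refine ⟨((K₁ ×ˢ ((range K) ×ˢ (range K)).filter (fun q => q.1 ≠ q.2)).image
      (fun q => q.1 * ((d + 1) * ((q.2.1 : ℤ) - (q.2.2 : ℤ))))), δ₁, max H₁ (max K H₂), ?_, hδ₁, ?_⟩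
    · rw [Finset.mem_image]
      rintro ⟨⟨κ, a, b⟩, hq, he⟩
      rw [Finset.mem_product, Finset.mem_filter] at hq
      simp only at hq he
      have h1 : κ ≠ 0 := fun h => h0 (h ▸ hq.1)
      have h2 : ((d : ℤ) + 1) ≠ 0 := by positivity
      have h3 : (a : ℤ) - (b : ℤ) ≠ 0 := sub_ne_zero.2 (by exact_mod_cast hq.2.2)
      exact (mul_ne_zero h1 (mul_ne_zero h2 h3)) he
    · intro S f hf H hH P hP hlin
      have hH1 : H₁ ≤ H := le_trans (le_max_left _ _) hH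
      have hHK : K ≤ H := le_trans (le_trans (le_max_left _ _) (le_max_right _ _)) hH
      have hH2 : H₂ ≤ H := le_trans (le_trans (le_max_right _ _) (le_max_right _ _)) hH
      have hv := vdc S (fun h => S.sh (P.eval (h : ℤ)) f) (fun h => hf.sh S _) H K hK1 hHK
      have hmat := mat_le K hK1 (fun a b => ‖(H : ℂ)⁻¹ * ∑ h ∈ range H,
        S.int (fun x => S.sh (P.eval ((h + a : ℕ) : ℤ)) f x *
          conj (S.sh (P.eval ((h + b : ℕ) : ℤ)) f x))‖) (δ / 3) (by positivity) ?_ ?_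
      · have hH0 : (0 : ℝ) < H := lt_of_lt_of_le hK0 (by exact_mod_cast hHK)
        have e1 : (1 : ℝ) / K ≤ δ / 3 := by
          rw [div_le_div_iff₀ hK0 (by norm_num)]
          rw [div_lt_iff₀ hδ] at hK
          linarith
        have e2 : 2 * (K : ℝ) / H ≤ δ / 3 := by
          rw [div_le_div_iff₀ hH0 (by norm_num)]
          rw [div_lt_iff₀ hδ] at hH₂
          have : (H₂ : ℝ) * δ ≤ H * δ := by gcongr; 
          nlinarith
        linarith
      · intro a _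
        exact corr_le_one S (fun h => hf.sh S _) (fun h => hf.sh S _) H
      · intro a ha b hb hab
        have hab' : (a : ℤ) ≠ (b : ℤ) := by exact_mod_cast hab
        obtain ⟨hQ1, hQ2⟩ := diff_shift P d hP a b hab'
        have h3 := hmain S f hf H hH1 (taylor (a : ℤ) P - taylor (b : ℤ) P) hQ1 ?_
        · have h4 := corr_le S hf H (fun h => (taylor (a : ℤ) P - taylor (b : ℤ) P).eval (h : ℤ))
            (δ / 3) (by positivity) h3
          refine le_of_eq_of_le ?_ h4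
          congr 2
          refine Finset.sum_congr rfl fun h _ => ?_
          rw [int_shift, eval_sub, taylor_eval, taylor_eval]
          push_cast
          rfl
        · intro κ hκ
          have h5 := hlin (κ * ((d + 1) * ((a : ℤ) - (b : ℤ)))) ?_
          · rw [hQ2]
            have h6 : κ * ((d + 1) * ((a : ℤ) - (b : ℤ))) * P.leadingCoeff =
              κ * ((d + 1) * ((a : ℤ) - (b : ℤ)) * P.leadingCoeff) := by ring
            rw [h6] at h5
            exact h5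
          · rw [Finset.mem_image]
            refine ⟨(κ, a, b), ?_, rfl⟩
            rw [Finset.mem_product, Finset.mem_filter, Finset.mem_product]
            exact ⟨hκ, ⟨Finset.mem_range.2 ha, Finset.mem_range.2 hb⟩, hab⟩

/-- REC-11a -/
theorem single_poly (S : Sys X) (D : ℕ) (hD : 1 ≤ D) (C : ℤ) (hC : C ≠ 0) (f : X → ℂ)
    (hf : B1 f) (hrat : S.RatNull f) (ε : ℝ) (hε : 0 < ε) :
    ∃ H₀ : ℕ, ∀ H ≥ H₀, ∀ P : ℤ[X], P.natDegree = D → P.leadingCoeff = C →
      S.sq (avg H (fun h => S.sh (P.eval (h : ℤ)) f)) ≤ ε := by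
  obtain ⟨K, δ, H₁, h0, hδ, hmain⟩ := reduce (X := X) D hD ε hε
  have h1 : ∀ᶠ N : ℕ in atTop, ∀ κ ∈ K,
      S.sq (avg N (fun h => S.sh (κ * C * (h : ℤ)) f)) ≤ δ := by
    rw [Filter.eventually_all_finset]
    intro κ hκ
    have hκ0 : κ ≠ 0 := fun h => h0 (h ▸ hκ)
    exact (linear_tendsto S (κ * C) (mul_ne_zero hκ0 hC) hf hrat).eventually (eventually_le_nhds hδ)
  obtain ⟨H₂, hH₂⟩ := eventually_atTop.1 h1
  refine ⟨max H₁ H₂, fun H hH P hP hlc => hmain S f hf H (le_trans (le_max_left _ _) hH) P hP ?_⟩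
  intro κ hκ
  rw [hlc]
  exact hH₂ H (le_trans (le_max_right _ _) hH) κ hκ

/-- quadratic progressions of linear averages -/
lemma quad (S : Sys X) (m : ℤ) (hm : m ≠ 0) (f : X → ℂ)
    (hf : B1 f) (hrat : S.RatNull f) (ε : ℝ) (hε : 0 < ε) :
    ∃ H₀ : ℕ, ∀ H ≥ H₀, ∀ᶠ L : ℕ in atTop, ∀ x₀ : ℤ,
      (L : ℝ)⁻¹ * ∑ i ∈ range L,
        S.sq (avg H (fun h => S.sh (m * (x₀ + i) ^ 2 * (h : ℤ)) f)) ≤ ε := by
  obtain ⟨H₀, hH₀⟩ := exists_nat_gt (2 / ε)
  refine ⟨H₀, fun H hH => ?_⟩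
  have hH' : (0 : ℝ) < H :=
    lt_of_lt_of_le (lt_trans (by positivity) hH₀) (by exact_mod_cast hH)
  have hH1 : 1 ≤ H := by
    have : 0 < H := by exact_mod_cast hH'
    exact this
  have h1 : ∀ᶠ L : ℕ in atTop, ∀ a ∈ range H, ∀ b ∈ range H, a ≠ b → ∀ x₀ : ℤ,
      S.sq (avg L (fun i => S.sh (m * ((a : ℤ) - b) * ((i : ℤ) + x₀) ^ 2) f)) ≤ (ε / 2) ^ 2 := by
    rw [Filter.eventually_all_finset]
    intro a _
    rw [Filter.eventually_all_finset]
    intro b _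
    by_cases hab : a = b
    · exact Eventually.of_forall fun L h => absurd hab h
    · have hab' : (a : ℤ) - b ≠ 0 := sub_ne_zero.2 (by exact_mod_cast hab)
      have hmab : m * ((a : ℤ) - b) ≠ 0 := mul_ne_zero hm hab'
      obtain ⟨L₀, hL₀⟩ := single_poly S 2 (by norm_num) _ hmab f hf hrat ((ε / 2) ^ 2)
        (by positivity)
      refine eventually_atTop.2 ⟨L₀, fun L hL _ x₀ => ?_⟩
      have h2 := hL₀ L hL (Polynomial.C (m * ((a : ℤ) - b)) *
        (Polynomial.X + Polynomial.C x₀) ^ 2) ?_ ?_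
      · simpa using h2
      · rw [natDegree_C_mul hmab, natDegree_pow, natDegree_X_add_C]
      · rw [leadingCoeff_mul, leadingCoeff_C, leadingCoeff_pow, leadingCoeff_X_add_C, one_pow,
          mul_one]
  filter_upwards [h1, eventually_ge_atTop 1] with L hL hL1 x₀
  have hmat := mat_le H hH1 (fun a b => ‖(L : ℂ)⁻¹ * ∑ i ∈ range L,
    S.int (fun x => S.sh (m * (x₀ + i) ^ 2 * (a : ℤ)) f x *
      conj (S.sh (m * (x₀ + i) ^ 2 * (b : ℤ)) f x))‖) (ε / 2) (by positivity) ?_ ?_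
  · have e1 : (1 : ℝ) / H ≤ ε / 2 := by
      rw [div_le_div_iff₀ hH' (by norm_num)]
      rw [div_lt_iff₀ hε] at hH₀
      have : (H₀ : ℝ) * ε ≤ H * ε := by gcongr
      linarith
    have e2 : ((((L : ℝ)⁻¹ * ∑ i ∈ range L,
        S.sq (avg H (fun h => S.sh (m * (x₀ + i) ^ 2 * (h : ℤ)) f))) : ℝ) : ℂ) =
        ((H : ℂ) ^ 2)⁻¹ * ∑ a ∈ range H, ∑ b ∈ range H, ((L : ℂ)⁻¹ * ∑ i ∈ range L,
          S.int (fun x => S.sh (m * (x₀ + i) ^ 2 * (a : ℤ)) f x *
            conj (S.sh (m * (x₀ + i) ^ 2 * (b : ℤ)) f x))) := by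
      push_cast
      have : ∀ i : ℕ, ((S.sq (avg H (fun h => S.sh (m * (x₀ + i) ^ 2 * (h : ℤ)) f)) : ℝ) : ℂ) =
          ((H : ℂ) ^ 2)⁻¹ * ∑ a ∈ range H, ∑ b ∈ range H,
            S.int (fun x => S.sh (m * (x₀ + i) ^ 2 * (a : ℤ)) f x *
              conj (S.sh (m * (x₀ + i) ^ 2 * (b : ℤ)) f x)) := fun i =>
        S.sq_avg (fun h => hf.sh S _) H
      simp only [this, Finset.mul_sum]
      rw [Finset.sum_comm]
      refine Finset.sum_congr rfl fun a _ => ?_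
      rw [Finset.sum_comm]
      refine Finset.sum_congr rfl fun b _ => Finset.sum_congr rfl fun i _ => ?_
      ring
    have e3 := Real.le_norm_self ((L : ℝ)⁻¹ * ∑ i ∈ range L,
        S.sq (avg H (fun h => S.sh (m * (x₀ + i) ^ 2 * (h : ℤ)) f)))
    rw [← Complex.norm_real, e2, norm_mul, norm_inv, norm_pow, Complex.norm_natCast] at e3
    have e4 : ‖∑ a ∈ range H, ∑ b ∈ range H, ((L : ℂ)⁻¹ * ∑ i ∈ range L,
          S.int (fun x => S.sh (m * (x₀ + i) ^ 2 * (a : ℤ)) f x *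
            conj (S.sh (m * (x₀ + i) ^ 2 * (b : ℤ)) f x)))‖ ≤
        ∑ a ∈ range H, ∑ b ∈ range H, ‖(L : ℂ)⁻¹ * ∑ i ∈ range L,
          S.int (fun x => S.sh (m * (x₀ + i) ^ 2 * (a : ℤ)) f x *
            conj (S.sh (m * (x₀ + i) ^ 2 * (b : ℤ)) f x))‖ :=
      (norm_sum_le _ _).trans (Finset.sum_le_sum fun a _ => norm_sum_le _ _)
    have e5 : ((H : ℝ) ^ 2)⁻¹ * ‖∑ a ∈ range H, ∑ b ∈ range H, ((L : ℂ)⁻¹ * ∑ i ∈ range L,
          S.int (fun x => S.sh (m * (x₀ + i) ^ 2 * (a : ℤ)) f x *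
            conj (S.sh (m * (x₀ + i) ^ 2 * (b : ℤ)) f x)))‖ ≤
        ((H : ℝ) ^ 2)⁻¹ * ∑ a ∈ range H, ∑ b ∈ range H, ‖(L : ℂ)⁻¹ * ∑ i ∈ range L,
          S.int (fun x => S.sh (m * (x₀ + i) ^ 2 * (a : ℤ)) f x *
            conj (S.sh (m * (x₀ + i) ^ 2 * (b : ℤ)) f x))‖ := by
      gcongr
    linarith
  · intro a _
    exact corr_le_one S (fun i => hf.sh S _) (fun i => hf.sh S _) L
  · intro a ha b hb hab
    have h3 := hL a (Finset.mem_range.2 ha) b (Finset.mem_range.2 hb) hab x₀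
    have h4 := corr_le S hf L (fun i => m * ((a : ℤ) - b) * ((i : ℤ) + x₀) ^ 2) (ε / 2)
      (by positivity) h3
    refine le_of_eq_of_le ?_ h4
    congr 2
    refine Finset.sum_congr rfl fun i _ => ?_
    rw [int_shift]
    congr 1
    funext x
    congr 2
    ring

/-- REC-11 -/
theorem eprime (S : Sys X) (e : ℕ) (he : 1 ≤ e) (r : ℕ) (hr : 1 ≤ r) (f : X → ℂ) (hf : B1 f)
    (hrat : S.RatNull f) (ε : ℝ) (hε : 0 < ε) :
    ∃ H₀ : ℕ, ∀ H ≥ H₀, ∃ L₀ : ℕ, ∀ L ≥ L₀, ∀ x₀ : ℤ, ∀ P : ℤ → ℤ[X],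
      (∀ x, x₀ ≤ x → x < x₀ + L →
        (P x).natDegree = 2 * e ∧ (P x).leadingCoeff = (r * x) ^ 2) →
      (L : ℝ)⁻¹ * ∑ i ∈ range L,
        S.sq (avg H (fun h => S.sh ((P (x₀ + i)).eval (h : ℤ)) f)) ≤ ε := by
  obtain ⟨K, δ, H₁, h0, hδ, hmain⟩ := reduce (X := X) (2 * e) (by omega) (ε / 2) (by positivity)
  have hη : 0 < δ * ε / (2 * (K.card + 1)) := by positivity
  have hq : ∀ κ ∈ K, ∃ H₀ : ℕ, ∀ H ≥ H₀, ∀ᶠ L : ℕ in atTop, ∀ x₀ : ℤ,
      (L : ℝ)⁻¹ * ∑ i ∈ range L,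
        S.sq (avg H (fun h => S.sh (κ * r ^ 2 * (x₀ + i) ^ 2 * (h : ℤ)) f)) ≤
          δ * ε / (2 * (K.card + 1)) := by
    intro κ hκ
    have hκ0 : κ ≠ 0 := fun h => h0 (h ▸ hκ)
    have hr0 : (r : ℤ) ≠ 0 := by exact_mod_cast (by omega : r ≠ 0)
    exact quad S (κ * r ^ 2) (mul_ne_zero hκ0 (pow_ne_zero 2 hr0)) f hf hrat _ hη
  have hq' : ∀ᶠ H : ℕ in atTop, ∀ κ ∈ K, ∀ᶠ L : ℕ in atTop, ∀ x₀ : ℤ,
      (L : ℝ)⁻¹ * ∑ i ∈ range L,
        S.sq (avg H (fun h => S.sh (κ * r ^ 2 * (x₀ + i) ^ 2 * (h : ℤ)) f)) ≤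
          δ * ε / (2 * (K.card + 1)) := by
    rw [Filter.eventually_all_finset]
    intro κ hκ
    obtain ⟨H₀, h⟩ := hq κ hκ
    exact eventually_atTop.2 ⟨H₀, h⟩
  obtain ⟨H₂, hH₂⟩ := eventually_atTop.1 hq'
  refine ⟨max H₁ H₂, fun H hH => ?_⟩
  have h1 : ∀ᶠ L : ℕ in atTop, ∀ κ ∈ K, ∀ x₀ : ℤ, (L : ℝ)⁻¹ * ∑ i ∈ range L,
        S.sq (avg H (fun h => S.sh (κ * r ^ 2 * (x₀ + i) ^ 2 * (h : ℤ)) f)) ≤
          δ * ε / (2 * (K.card + 1)) := by
    rw [Filter.eventually_all_finset]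
    exact hH₂ H (le_trans (le_max_right _ _) hH)
  obtain ⟨L₀, hL₀⟩ := eventually_atTop.1 h1
  refine ⟨max L₀ 1, fun L hL x₀ P hP => ?_⟩
  have hL' := hL₀ L (le_trans (le_max_left _ _) hL)
  have hLpos : (0 : ℝ) < L := by
    have : 1 ≤ L := le_trans (le_max_right _ _) hL
    exact_mod_cast this
  have hpt : ∀ i ∈ range L, S.sq (avg H (fun h => S.sh ((P (x₀ + i)).eval (h : ℤ)) f)) ≤
      ε / 2 + ∑ κ ∈ K, δ⁻¹ *
        S.sq (avg H (fun h => S.sh (κ * r ^ 2 * (x₀ + i) ^ 2 * (h : ℤ)) f)) := by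
    intro i hi
    rw [Finset.mem_range] at hi
    obtain ⟨hd, hlc⟩ := hP (x₀ + i) (by omega) (by omega)
    have hnn : ∀ κ ∈ K, 0 ≤ δ⁻¹ *
        S.sq (avg H (fun h => S.sh (κ * r ^ 2 * (x₀ + i) ^ 2 * (h : ℤ)) f)) := fun κ _ =>
      mul_nonneg (by positivity) (S.sq_nonneg _)
    by_cases hall : ∀ κ ∈ K,
        S.sq (avg H (fun h => S.sh (κ * r ^ 2 * (x₀ + i) ^ 2 * (h : ℤ)) f)) ≤ δ
    · have h2 := hmain S f hf H (le_trans (le_max_left _ _) hH) (P (x₀ + i)) hd ?_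
      · have := Finset.sum_nonneg hnn
        linarith
      · intro κ hκ
        have h3 := hall κ hκ
        rw [hlc]
        have h4 : κ * ((r : ℤ) * (x₀ + i)) ^ 2 = κ * r ^ 2 * (x₀ + i) ^ 2 := by ring
        rw [h4]
        exact h3
    · push Not at hall
      obtain ⟨κ, hκ, h3⟩ := hall
      have h4 : (1 : ℝ) ≤ δ⁻¹ *
          S.sq (avg H (fun h => S.sh (κ * r ^ 2 * (x₀ + i) ^ 2 * (h : ℤ)) f)) := by
        rw [inv_mul_eq_div, le_div_iff₀ hδ, one_mul]
        exact h3.le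
      have h5 := Finset.single_le_sum hnn hκ
      have h6 := S.sq_le_one (B1.avg (fun h : ℕ =>
        hf.sh S ((P (x₀ + i)).eval (h : ℤ))) H)
      linarith
  calc (L : ℝ)⁻¹ * ∑ i ∈ range L,
        S.sq (avg H (fun h => S.sh ((P (x₀ + i)).eval (h : ℤ)) f))
      ≤ (L : ℝ)⁻¹ * ∑ i ∈ range L, (ε / 2 + ∑ κ ∈ K, δ⁻¹ *
        S.sq (avg H (fun h => S.sh (κ * r ^ 2 * (x₀ + i) ^ 2 * (h : ℤ)) f))) := by
        gcongr with i hi
        exact hpt i hi
    _ = ε / 2 + ∑ κ ∈ K, δ⁻¹ * ((L : ℝ)⁻¹ * ∑ i ∈ range L,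
        S.sq (avg H (fun h => S.sh (κ * r ^ 2 * (x₀ + i) ^ 2 * (h : ℤ)) f))) := by
        rw [Finset.sum_add_distrib, Finset.sum_const, Finset.card_range, nsmul_eq_mul, mul_add,
          ← mul_assoc, inv_mul_cancel₀ hLpos.ne', one_mul, Finset.sum_comm]
        congr 1
        simp only [Finset.mul_sum]
        refine Finset.sum_congr rfl fun κ _ => Finset.sum_congr rfl fun i _ => ?_
        ring
    _ ≤ ε / 2 + ∑ κ ∈ K, δ⁻¹ * (δ * ε / (2 * (K.card + 1))) := by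
        gcongr with κ hκ
        exact hL' κ hκ x₀
    _ ≤ ε := by
        rw [Finset.sum_const, nsmul_eq_mul]
        have h7 : (K.card : ℝ) * (δ⁻¹ * (δ * ε / (2 * (K.card + 1)))) =
            (K.card / (K.card + 1)) * (ε / 2) := by
          field_simp
        rw [h7]
        have h8 : (K.card : ℝ) / (K.card + 1) ≤ 1 := by
          rw [div_le_one (by positivity)]; linarith
        nlinarith

end Pool.Agent.Helper50.Rec
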